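import Pool.Agent.K1H81.DC.Stm

/-!
# Project DC, piece TR: the number of points of a double cover and the quadratic character
-/

set_option autoImplicit false
set_option linter.unusedSectionVars false

namespace Pool.Agent.K1H50.DC

open Finset hiding val
open Pool.Agent.Y722.HS Pool.Agent.X280.HG
open Pool.Agent.K1H81.HV (KK NV PF ev Fr deg Nm exists_Nm Nm_ne_zero val_smulK Nm_smul mem_PF
  iter_eq_iff NV_ext Fr_iter ι_ev range_iff card_PF)

section
variable {κ : Type*} [Field κ] {n d : ℕ}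

theorem card_pairs (c : Mon n d → κ) [Fintype κ] (hd : Even d) :
    Nat.card {x : (Fin (n + 1) → κ) × κ // x.1 ≠ 0 ∧ x.2 ^ 2 = val c x.1} =
      (Fintype.card κ - 1) *
        Nat.card {v : (Fin (n + 1) → κ) × κ // Nm v.1 ∧ v.2 ^ 2 = val c v.1} := by
  classical
  obtain ⟨e, rfl⟩ := hd
  have h1 : Nat.card κˣ = Fintype.card κ - 1 := by
    rw [Nat.card_eq_fintype_card, Fintype.card_units]
  rw [← h1, ← Nat.card_prod]
  symm
  refine Nat.card_congr (Equiv.ofBijective (fun uv : κˣ ×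
      {v : (Fin (n + 1) → κ) × κ // Nm v.1 ∧ v.2 ^ 2 = val c v.1}
    => (⟨((uv.1 : κ) • uv.2.1.1, (uv.1 : κ) ^ e * uv.2.1.2),
      smul_ne_zero uv.1.ne_zero (Nm_ne_zero uv.2.2.1), by
        change ((uv.1 : κ) ^ e * uv.2.1.2) ^ 2 = val c ((uv.1 : κ) • uv.2.1.1)
        rw [val_smulK, ← uv.2.2.2]; ring⟩ :
      {x : (Fin (n + 1) → κ) × κ // x.1 ≠ 0 ∧ x.2 ^ 2 = val c x.1})) ⟨?_, ?_⟩)
  · rintro ⟨u, ⟨v, y⟩, hv1, hv2⟩ ⟨u', ⟨v', y'⟩, hv1', hv2'⟩ h
    have h0 := congrArg Subtype.val h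
    have h2 : (u : κ) • v = (u' : κ) • v' := congrArg Prod.fst h0
    have h2' : (u : κ) ^ e * y = (u' : κ) ^ e * y' := congrArg Prod.snd h0
    have h3 : v = ((u : κ)⁻¹ * u') • v' := by
      rw [mul_smul, ← h2, smul_smul, inv_mul_cancel₀ u.ne_zero, one_smul]
    have h4 := Nm_smul hv1' (h3 ▸ hv1)
    have h5 : (u : κ) = u' := by
      have := congrArg (fun z => (u : κ) * z) h4
      simp only [mul_one] at this
      rw [← mul_assoc, mul_inv_cancel₀ u.ne_zero, one_mul] at this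
      exact this.symm
    have h6 : v = v' := by rw [h3, h4, one_smul]
    have h7 : u = u' := Units.ext h5
    subst h6 h7
    have h8 : y = y' := mul_left_cancel₀ (pow_ne_zero e u.ne_zero) h2'
    subst h8
    rfl
  · rintro ⟨⟨x, y⟩, hx, hx2⟩
    obtain ⟨u, v, hv, hxv⟩ := exists_Nm x hx
    have hue : (u : κ) ^ e ≠ 0 := pow_ne_zero _ u.ne_zero
    refine ⟨(u, ⟨(v, ((u : κ) ^ e)⁻¹ * y), hv, ?_⟩), Subtype.ext (Prod.ext hxv.symm ?_)⟩
    · change (((u : κ) ^ e)⁻¹ * y) ^ 2 = val c v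
      change y ^ 2 = val c x at hx2
      rw [hxv, val_smulK] at hx2
      rw [mul_pow, hx2, ← mul_assoc, inv_pow]
      have h9 : ((u : κ) ^ e) ^ 2 = (u : κ) ^ (e + e) := by ring
      rw [h9, inv_mul_cancel₀ (pow_ne_zero _ u.ne_zero), one_mul]
    · change (u : κ) ^ e * (((u : κ) ^ e)⁻¹ * y) = y
      rw [← mul_assoc, mul_inv_cancel₀ hue, one_mul]

/-- The number of the square roots. -/
theorem card_sqrt [Fintype κ] [DecidableEq κ] (h2 : ringChar κ ≠ 2) (a : κ) :
    (Nat.card {y : κ // y ^ 2 = a} : ℝ) = 1 + (quadraticChar κ a : ℝ) := by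
  have h := quadraticChar_card_sqrts h2 a
  have h3 : Nat.card {y : κ // y ^ 2 = a} = ({x : κ | x ^ 2 = a} : Set κ).toFinset.card := by
    rw [Set.toFinset_card, ← Nat.card_eq_fintype_card]
    rfl
  rw [h3]
  have h4 := congrArg (fun z : ℤ => (z : ℝ)) h
  simp only [Int.cast_natCast, Int.cast_add, Int.cast_one] at h4
  rw [h4, add_comm]

theorem card_pairs' (c : Mon n d → κ) [Fintype κ] [DecidableEq κ] (h2 : ringChar κ ≠ 2)
    [Fintype {v : Fin (n + 1) → κ // Nm v}] :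
    (Nat.card {v : (Fin (n + 1) → κ) × κ // Nm v.1 ∧ v.2 ^ 2 = val c v.1} : ℝ) =
      ∑ v : {v : Fin (n + 1) → κ // Nm v}, (1 + (quadraticChar κ (val c v.1) : ℝ)) := by
  have h1 : Nat.card {v : (Fin (n + 1) → κ) × κ // Nm v.1 ∧ v.2 ^ 2 = val c v.1} =
      Nat.card (Σ v : {v : Fin (n + 1) → κ // Nm v}, {y : κ // y ^ 2 = val c v.1}) := by
    refine Nat.card_congr ⟨fun v => ⟨⟨v.1.1, v.2.1⟩, ⟨v.1.2, v.2.2⟩⟩,
      fun v => ⟨(v.1.1, v.2.1), v.1.2, v.2.2⟩, fun v => rfl, fun v => rfl⟩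
  rw [h1, Nat.card_sigma, Nat.cast_sum]
  exact Finset.sum_congr rfl fun v _ => card_sqrt h2 _

end

section
variable {p : ℕ} [hp : Fact p.Prime] {n d : ℕ}

theorem sum_Nm {κ : Type*} [Field κ] [Fintype κ] (k : ℕ) (hk : 0 < k)
    (hq : Fintype.card κ = p ^ k) (ι : κ →+* KK p) (χ : ZMod p →+* κ) (c : Mon n d → ZMod p)
    [Fintype {v : Fin (n + 1) → κ // Nm v}] (g : κ → ℝ) (f : KK p → ℝ) (hfg : ∀ z, f (ι z) = g z) :
    ∑ v : {v : Fin (n + 1) → κ // Nm v}, g (val (fun μ => χ (c μ)) v.1) =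
      ∑ w ∈ PF p n k, f (ev c w) := by
  classical
  have hv : ∀ v : Fin (n + 1) → κ, Nm v → Nm fun i => ι (v i) := by
    rintro v ⟨i, h1, h2⟩
    exact ⟨i, by simp only [h1, map_one], fun j hj => by simp only [h2 j hj, map_zero]⟩
  refine Finset.sum_bij (fun v _ => (⟨fun i => ι (v.1 i), hv v.1 v.2⟩ : NV p n)) ?_ ?_ ?_ ?_
  · intro v _
    rw [mem_PF, ← iter_eq_iff]
    refine ⟨hk, NV_ext fun i => ?_⟩
    rw [Fr_iter]
    change ι (v.1 i) ^ p ^ k = ι (v.1 i)
    rw [← map_pow, ← hq, FiniteField.pow_card]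
  · intro v _ w _ h
    have h1 : ∀ i, ι (v.1 i) = ι (w.1 i) := fun i =>
      congrFun (congrArg (fun z : NV p n => z.1) h) i
    exact Subtype.ext (funext fun i => ι.injective (h1 i))
  · intro w hw1
    have h1 : ∀ i, ∃ b, ι b = w.1 i := by
      intro i
      rw [← range_iff ι, hq]
      have h2 := (iter_eq_iff w k).2 (mem_PF.1 hw1).2
      have h3 := congrFun (congrArg Subtype.val h2) i
      rw [Fr_iter] at h3
      exact h3
    choose x hx using h1
    have h2 : Nm x := by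
      obtain ⟨i, h3, h4⟩ := w.2
      refine ⟨i, ι.injective (by rw [hx, h3, map_one]), fun j hj => ι.injective ?_⟩
      rw [hx, h4 j hj, map_zero]
    exact ⟨⟨x, h2⟩, Finset.mem_univ _, NV_ext fun i => hx i⟩
  · intro v _
    rw [ι_ev ι χ c v.1 _ fun i => rfl, hfg]

theorem qc_ι {κ : Type*} [Field κ] [Fintype κ] [DecidableEq κ] (k : ℕ) (hp2 : p ≠ 2)
    (hq : Fintype.card κ = p ^ k) (h2 : ringChar κ ≠ 2) (ι : κ →+* KK p) (z : κ) :
    Pool.Agent.K1H81.DC.qc p k (ι z) = (quadraticChar κ z : ℝ) := by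
  have hodd : Odd (p ^ k) := (hp.out.odd_of_ne_two hp2).pow
  have hhalf : (p ^ k - 1) / 2 = Fintype.card κ / 2 := by
    rw [hq]
    obtain ⟨t, ht⟩ := hodd
    omega
  unfold Pool.Agent.K1H81.DC.qc
  by_cases hz : z = 0
  · subst hz
    rw [if_pos (map_zero ι), quadraticChar_zero, Int.cast_zero]
  · rw [if_neg (by rwa [map_eq_zero])]
    have h3 := quadraticChar_eq_pow_of_char_ne_two' h2 z
    rw [hhalf, ← map_pow, ← h3]
    rcases quadraticChar_dichotomy hz with h4 | h4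
    · rw [h4, if_pos (by simp), Int.cast_one]
    · rw [h4, if_neg, Int.cast_neg, Int.cast_one]
      intro h5
      have h6 : ((-1 : ℤ) : κ) = 1 := ι.injective (by rw [h5, map_one])
      apply Ring.neg_one_ne_one_of_char_ne_two h2
      simpa using h6

end

/-- piece TR -/
theorem t : Pool.Agent.K1H81.DC.S_TR := by
  intro m d hd c p k hp hp2 hk
  classical
  have hfin : Finite (GaloisField p k) := inferInstance
  let _ := Fintype.ofFinite (GaloisField p k)
  have hq : Fintype.card (GaloisField p k) = p ^ k := by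
    rw [← Nat.card_eq_fintype_card]
    exact GaloisField.card p k hk.ne'
  let ι : GaloisField p k →+* KK p := (IsAlgClosed.lift (R := ZMod p)).toRingHom
  have h2 : ringChar (GaloisField p k) ≠ 2 := by
    have : ringChar (GaloisField p k) = p := ringChar.eq (GaloisField p k) p
    rw [this]
    exact hp2
  have hfinN : Finite {v : Fin (2 * m + 1) → GaloisField p k // Nm v} := inferInstance
  let _ := Fintype.ofFinite {v : Fin (2 * m + 1) → GaloisField p k // Nm v}
  have h1 := card_pairs (n := 2 * m) (fun μ => algebraMap (ZMod p) (GaloisField p k) (red p c μ)) hd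
  have h3 : Nat.card {x : (Fin (2 * m + 1) → GaloisField p k) × GaloisField p k // x.1 ≠ 0 ∧
      x.2 ^ 2 = MvPolynomial.eval x.1 (form fun μ => (c μ : GaloisField p k))} =
      Nat.card {x : (Fin (2 * m + 1) → GaloisField p k) × GaloisField p k // x.1 ≠ 0 ∧
      x.2 ^ 2 = val (fun μ => algebraMap (ZMod p) (GaloisField p k) (red p c μ)) x.1} := by
    refine Nat.card_congr (Equiv.subtypeEquivRight fun x => ?_)
    rw [eval_form]
    have h4 : ∀ μ, algebraMap (ZMod p) (GaloisField p k) (red p c μ) = (c μ : GaloisField p k) := by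
      intro μ
      unfold red
      rw [map_intCast]
    unfold val
    simp only [h4]
  have h5 := card_pairs' (n := 2 * m)
    (fun μ => algebraMap (ZMod p) (GaloisField p k) (red p c μ)) h2
  have h6 := sum_Nm (p := p) (n := 2 * m) (d := d) k hk hq ι
    (algebraMap (ZMod p) (GaloisField p k)) (red p c)
    (fun z => 1 + (quadraticChar (GaloisField p k) z : ℝ))
    (fun y => 1 + Pool.Agent.K1H81.DC.qc p k y)
    (fun z => by rw [qc_ι k hp2 hq h2])
  have hpk : (1 : ℝ) < (p : ℝ) ^ k := one_lt_pow₀ (by exact_mod_cast hp.out.one_lt) hk.ne'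
  unfold Pool.Agent.K1H81.DC.trace Pool.Agent.K1H81.DC.numPoints Pool.Agent.K1H81.DC.tq
  rw [dif_pos hp.out]
  congr 1
  rw [h3, h1, Nat.cast_mul, h5, h6, hq, Nat.cast_sub (Nat.one_le_pow _ _ hp.out.pos)]
  push_cast
  rw [mul_div_cancel_left₀ _ (by linarith : (p : ℝ) ^ k - 1 ≠ 0), Finset.sum_add_distrib,
    Finset.sum_const, nsmul_eq_mul, mul_one, card_PF _ k hk]
  ring

end Pool.Agent.K1H50.DC
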